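import Pool.Agent.Y721.TW.Comp

set_option autoImplicit false

/-! MP_75c46b_gt.  Let `X` be any continuum and let `Y` be a compact metric space that has, for
every `ε > 0`, a continuous map to the real line with fibres of diameter at most `ε` (for
instance a chainable continuum).  For every continuous map `f : X → Y` there is ONE continuum `K`
of pairs `(x, y)` with `f x = f y` that contains the whole diagonal, is symmetric, and contains
pairs at every distance `a` with `0 ≤ a ≤ width X` (the end point `a = width X` included).

`width` is the width of the problem (definition in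
Pool/Agent/Results/MP_75c46b_gt/Full.lean, through `WidthProp`, `IsLinkChain` and `setDist`). -/

namespace Pool.Agent.Results.MP_75c46b_gt.DiagonalComponent

open Pool.Agent.Results.MP_75c46b_gt.Full

/-- `Y` has for every `ε > 0` a continuous map to the real line all of whose fibres have diameter
at most `ε` -/
def LineLike (Y : Type*) [MetricSpace Y] : Prop :=
  ∀ ε : ℝ, 0 < ε → ∃ g : Y → ℝ, Continuous g ∧ ∀ t, Metric.diam (g ⁻¹' {t}) ≤ ε

/-- every chainable space is line-like -/
theorem Chainable.lineLike {Y : Type*} [MetricSpace Y] (h : Chainable Y) : LineLike Y := by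
  intro ε hε
  obtain ⟨g, hg, -, hgd⟩ := h ε hε
  refine ⟨fun y => ((g y : unitInterval) : ℝ), continuous_subtype_val.comp hg, ?_⟩
  intro t
  by_cases ht : t ∈ Set.Icc (0 : ℝ) 1
  · have h1 : (fun y => ((g y : unitInterval) : ℝ)) ⁻¹' {t} = g ⁻¹' {⟨t, ht⟩} := by
      ext y
      simp only [Set.mem_preimage, Set.mem_singleton_iff]
      exact ⟨fun h => Subtype.ext h, fun h => by rw [h]⟩
    rw [h1]
    exact hgd _
  · have h1 : (fun y => ((g y : unitInterval) : ℝ)) ⁻¹' {t} = ∅ := by
      ext y
      simp only [Set.mem_preimage, Set.mem_singleton_iff, Set.mem_empty_iff_false, iff_false]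
      intro h
      exact ht (h ▸ (g y).2)
    rw [h1, Metric.diam_empty]
    exact hε.le

/-- For every continuous map `f` of a continuum `X` into a line-like compact metric space `Y`
(in particular into a chainable continuum) there is a symmetric continuum of pairs of points
identified by `f` which contains the diagonal and pairs at all distances in `[0, width X]`. -/
theorem result (X Y : Type*) [MetricSpace X] [CompactSpace X] [ConnectedSpace X]
    [MetricSpace Y] [CompactSpace Y] (hY : LineLike Y) (f : X → Y) (hf : Continuous f) :
    ∃ K : Set (X × X), IsCompact K ∧ IsConnected K ∧ (∀ z ∈ K, f z.1 = f z.2) ∧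
      (∀ x : X, (x, x) ∈ K) ∧ (∀ x y : X, (x, y) ∈ K → (y, x) ∈ K) ∧
      ∀ a : ℝ, 0 ≤ a → a ≤ width X → ∃ x y : X, (x, y) ∈ K ∧ dist x y = a :=
  Pool.Agent.Y721.TW.comp hY f hf

/-- the question of the problem, for all continua `X` and with the end point -/
theorem question (X Y : Type*) [MetricSpace X] [CompactSpace X] [ConnectedSpace X]
    [MetricSpace Y] [CompactSpace Y] [ConnectedSpace Y] (hY : Chainable Y)
    (f : X → Y) (hf : Continuous f) (a : ℝ) (ha : 0 < a) (haw : a ≤ width X) :
    ∃ x y : X, dist x y = a ∧ f x = f y := by
  obtain ⟨K, -, -, hK, -, -, hd⟩ := result X Y (Chainable.lineLike hY) f hf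
  obtain ⟨x, y, hxy, h⟩ := hd a ha.le haw
  exact ⟨x, y, h, hK _ hxy⟩

end Pool.Agent.Results.MP_75c46b_gt.DiagonalComponent
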